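import Pool.Agent.H629.CG.Stm

/-!
# Positive moments of sums of independent copies
-/

set_option autoImplicit false

namespace Pool.Agent.H671.CG.SUMP

open MeasureTheory ProbabilityTheory Filter Topology Set Pool.Agent.H629.CG
open scoped ENNReal NNReal

theorem pointwise {m : ℕ} (hm : 0 < m) {p : ℝ} (hp : 0 < p) (x : Fin m → ℝ≥0∞) :
    (∑ i, x i) ^ p ≤ 2 ^ p * ∑ i, x i ^ p +
      (m : ℝ≥0∞) ^ (3 * p / 2) *
        ∑ i, ∑ j ∈ Finset.univ.erase i, x i ^ (p / 2) * x j ^ (p / 2) := by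
  classical
  have hm' : (m : ℝ≥0∞) ≠ 0 := by exact_mod_cast hm.ne'
  have hmt : (m : ℝ≥0∞) ≠ ∞ := ENNReal.natCast_ne_top m
  have hp2 : 0 ≤ p / 2 := by positivity
  have : Nonempty (Fin m) := ⟨⟨0, hm⟩⟩
  obtain ⟨i, -, hi⟩ := Finset.exists_max_image Finset.univ x Finset.univ_nonempty
  have hsum : ∑ k, x k = x i + ∑ k ∈ Finset.univ.erase i, x k :=
    (Finset.add_sum_erase _ _ (Finset.mem_univ i)).symm
  by_cases h : ∑ k ∈ Finset.univ.erase i, x k ≤ x i
  · calc (∑ k, x k) ^ p ≤ (2 * x i) ^ p := by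
          apply ENNReal.rpow_le_rpow _ hp.le
          rw [hsum, two_mul]
          gcongr
      _ = 2 ^ p * x i ^ p := ENNReal.mul_rpow_of_nonneg _ _ hp.le
      _ ≤ 2 ^ p * ∑ k, x k ^ p := by
          gcongr
          exact Finset.single_le_sum (f := fun k => x k ^ p) (fun _ _ => zero_le)
            (Finset.mem_univ i)
      _ ≤ _ := le_self_add
  · have hj : ∃ j ∈ Finset.univ.erase i, x i ≤ m * x j := by
      by_contra hcon
      push Not at hcon
      apply h
      have h1 : (m : ℝ≥0∞) * ∑ k ∈ Finset.univ.erase i, x k ≤ m * x i := by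
        rw [Finset.mul_sum]
        calc ∑ k ∈ Finset.univ.erase i, (m : ℝ≥0∞) * x k
            ≤ ∑ k ∈ Finset.univ.erase i, x i := Finset.sum_le_sum fun k hk => (hcon k hk).le
          _ = ((Finset.univ.erase i).card : ℝ≥0∞) * x i := by
              rw [Finset.sum_const, nsmul_eq_mul]
          _ ≤ m * x i := by
              gcongr
              calc (Finset.univ.erase i).card ≤ (Finset.univ : Finset (Fin m)).card :=
                    Finset.card_le_card (Finset.erase_subset _ _)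
                _ = m := by simp
      exact (ENNReal.mul_le_mul_iff_right hm' hmt).mp h1
    obtain ⟨j, hj, hxj⟩ := hj
    calc (∑ k, x k) ^ p ≤ (m * x i) ^ p := by
          apply ENNReal.rpow_le_rpow _ hp.le
          calc ∑ k, x k ≤ ∑ k : Fin m, x i :=
                Finset.sum_le_sum fun k _ => hi k (Finset.mem_univ k)
            _ = m * x i := by simp
      _ = (m : ℝ≥0∞) ^ p * (x i ^ (p / 2) * x i ^ (p / 2)) := by
          rw [ENNReal.mul_rpow_of_nonneg _ _ hp.le, ← ENNReal.rpow_add_of_nonneg _ _ hp2 hp2,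
            add_halves]
      _ ≤ (m : ℝ≥0∞) ^ p * (x i ^ (p / 2) * (m * x j) ^ (p / 2)) := by
          gcongr
      _ = (m : ℝ≥0∞) ^ (3 * p / 2) * (x i ^ (p / 2) * x j ^ (p / 2)) := by
          rw [ENNReal.mul_rpow_of_nonneg _ _ hp2, show 3 * p / 2 = p + p / 2 by ring,
            ENNReal.rpow_add _ _ hm' hmt]
          ring
      _ ≤ (m : ℝ≥0∞) ^ (3 * p / 2) *
          ∑ i, ∑ j ∈ Finset.univ.erase i, x i ^ (p / 2) * x j ^ (p / 2) := by
          gcongr
          calc x i ^ (p / 2) * x j ^ (p / 2)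
              ≤ ∑ j ∈ Finset.univ.erase i, x i ^ (p / 2) * x j ^ (p / 2) :=
                Finset.single_le_sum (f := fun j => x i ^ (p / 2) * x j ^ (p / 2))
                  (fun _ _ => zero_le) hj
            _ ≤ _ := Finset.single_le_sum
                  (f := fun i => ∑ j ∈ Finset.univ.erase i, x i ^ (p / 2) * x j ^ (p / 2))
                  (fun _ _ => zero_le) (Finset.mem_univ i)
      _ ≤ _ := le_add_self

theorem t_SUMP : S_SUMP := by
  intro Ω _ P _ N hN m hm p hp
  classical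
  have hp2 : 0 ≤ p / 2 := by positivity
  have e1 : ∀ (q : ℝ) (i : Fin m), ∫⁻ η : Fin m → Ω, N (η i) ^ q ∂(Measure.pi fun _ => P) =
      ∫⁻ ω, N ω ^ q ∂P := by
    intro q i
    exact (measurePreserving_eval (fun _ : Fin m => P) i).lintegral_comp (hN.pow_const q)
  have e2 : ∀ i j : Fin m, i ≠ j →
      ∫⁻ η : Fin m → Ω, N (η i) ^ (p / 2) * N (η j) ^ (p / 2) ∂(Measure.pi fun _ => P) =
        (∫⁻ ω, N ω ^ (p / 2) ∂P) ^ 2 := by
    intro i j hij
    have hind : iIndepFun (fun (i : Fin m) (η : Fin m → Ω) => N (η i) ^ (p / 2))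
        (Measure.pi fun _ => P) :=
      iIndepFun_pi (X := fun _ ω => N ω ^ (p / 2)) (fun _ => (hN.pow_const _).aemeasurable)
    have h := lintegral_mul_eq_lintegral_mul_lintegral_of_indepFun
      ((hN.pow_const (p / 2)).comp (measurable_pi_apply i))
      ((hN.pow_const (p / 2)).comp (measurable_pi_apply j)) (hind.indepFun hij)
    have h2 : ∫⁻ η : Fin m → Ω, N (η i) ^ (p / 2) * N (η j) ^ (p / 2) ∂(Measure.pi fun _ => P) =
      (∫⁻ η : Fin m → Ω, N (η i) ^ (p / 2) ∂(Measure.pi fun _ => P)) *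
      ∫⁻ η : Fin m → Ω, N (η j) ^ (p / 2) ∂(Measure.pi fun _ => P) := h
    rw [h2, e1, e1, sq]
  have hme : ∀ (q : ℝ) (i : Fin m), Measurable fun η : Fin m → Ω => N (η i) ^ q :=
    fun q i => (hN.pow_const q).comp (measurable_pi_apply i)
  have hmm : ∀ i j : Fin m, Measurable fun η : Fin m → Ω => N (η i) ^ (p / 2) * N (η j) ^ (p / 2) :=
    fun i j => (hme _ i).mul (hme _ j)
  have hms : ∀ i : Fin m, Measurable fun η : Fin m → Ω =>
      ∑ j ∈ Finset.univ.erase i, N (η i) ^ (p / 2) * N (η j) ^ (p / 2) :=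
    fun i => Finset.measurable_sum _ fun j _ => hmm i j
  calc ∫⁻ η : Fin m → Ω, (∑ i, N (η i)) ^ p ∂(Measure.pi fun _ => P)
      ≤ ∫⁻ η : Fin m → Ω, (2 ^ p * ∑ i, N (η i) ^ p +
          (m : ℝ≥0∞) ^ (3 * p / 2) *
            ∑ i, ∑ j ∈ Finset.univ.erase i, N (η i) ^ (p / 2) * N (η j) ^ (p / 2))
          ∂(Measure.pi fun _ => P) := lintegral_mono fun η => pointwise hm hp fun i => N (η i)
    _ = 2 ^ p * ∑ i : Fin m, ∫⁻ ω, N ω ^ p ∂P + (m : ℝ≥0∞) ^ (3 * p / 2) *
          ∑ i : Fin m, ∑ j ∈ Finset.univ.erase i, (∫⁻ ω, N ω ^ (p / 2) ∂P) ^ 2 := by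
        rw [lintegral_add_left ((Finset.measurable_sum _ fun i _ => hme p i).const_mul _),
          lintegral_const_mul _ (Finset.measurable_sum _ fun i _ => hme p i),
          lintegral_const_mul _ (Finset.measurable_sum _ fun i _ => hms i),
          lintegral_finsetSum _ fun i _ => hme p i,
          lintegral_finsetSum _ fun i _ => hms i]
        congr 2
        · exact Finset.sum_congr rfl fun i _ => e1 p i
        · refine Finset.sum_congr rfl fun i _ => ?_
          rw [lintegral_finsetSum _ fun j _ => hmm i j]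
          refine Finset.sum_congr rfl fun j hj => e2 i j ?_
          exact (Finset.ne_of_mem_erase hj).symm
    _ ≤ 2 ^ p * m * ∫⁻ ω, N ω ^ p ∂P +
          (m : ℝ≥0∞) ^ (2 * p + 2) * (∫⁻ ω, N ω ^ (p / 2) ∂P) ^ 2 := by
        refine add_le_add (le_of_eq ?_) ?_
        · rw [Finset.sum_const, Finset.card_univ, Fintype.card_fin, nsmul_eq_mul, mul_assoc]
        · calc (m : ℝ≥0∞) ^ (3 * p / 2) *
                ∑ i : Fin m, ∑ j ∈ Finset.univ.erase i, (∫⁻ ω, N ω ^ (p / 2) ∂P) ^ 2
              ≤ (m : ℝ≥0∞) ^ (3 * p / 2) *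
                ∑ i : Fin m, ∑ j : Fin m, (∫⁻ ω, N ω ^ (p / 2) ∂P) ^ 2 := by
                gcongr
                exact Finset.subset_univ _
            _ = (m : ℝ≥0∞) ^ (3 * p / 2) * (m : ℝ≥0∞) ^ (2 : ℝ) *
                  (∫⁻ ω, N ω ^ (p / 2) ∂P) ^ 2 := by
                rw [Finset.sum_const, Finset.sum_const, Finset.card_univ, Fintype.card_fin,
                  nsmul_eq_mul, nsmul_eq_mul, ENNReal.rpow_two]
                ring
            _ ≤ _ := by
                gcongr
                have hm' : (m : ℝ≥0∞) ≠ 0 := by exact_mod_cast hm.ne'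
                rw [← ENNReal.rpow_add _ _ hm' (ENNReal.natCast_ne_top m)]
                apply ENNReal.rpow_le_rpow_of_exponent_le
                · exact_mod_cast hm
                · linarith

end Pool.Agent.H671.CG.SUMP
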